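import Pool.Agent.Y444.UN.Defs2

set_option autoImplicit false

/-! Finitely many special blocks (helper475, for helper444). -/

open MeasureTheory Set Filter
open scoped ENNReal

namespace Pool.Agent.Y475.UN

open Pool.Agent.Y444.UN

theorem t : IndStm → NspStm := by
  intro h f
  obtain ⟨h1, -, -, h4⟩ := h
  have hmeas : ∀ n, MeasurableSet {x : Om | Spec f n x} := by
    intro n
    have e : {x : Om | Spec f n x} = ⋂ j ∈ Finset.range n, {x : Om | x (n, f n, j) = false} := by
      ext x
      simp [Spec]
    rw [e]
    refine Finset.measurableSet_biInter _ fun j _ => ?_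
    exact measurableSet_eq_fun (measurable_pi_apply _) measurable_const
  have hval : ∀ n, P {x : Om | Spec f n x} = (2 : ℝ≥0∞)⁻¹ ^ n := by
    intro n
    have hinj : Function.Injective (fun j : ℕ => ((n, f n, j) : Idx)) := by
      intro a b hab
      simpa using hab
    have h5 := h4 univ ((Finset.range n).image fun j : ℕ => ((n, f n, j) : Idx)) (fun _ => false)
      MeasurableSet.univ (fun _ _ _ _ => trivial)
    rw [Finset.card_image_of_injective _ hinj, Finset.card_range, measure_univ, mul_one,
      univ_inter] at h5
    rw [← h5]
    congr 1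
    ext x
    simp [Spec]
  constructor
  · have e : {x : Om | ∃ᶠ n in atTop, Spec f n x} =
        ⋂ a : ℕ, ⋃ n : ℕ, ⋃ _ : a ≤ n, {x : Om | Spec f n x} := by
      ext x
      simp only [mem_ofPred_eq, frequently_atTop, mem_iInter, mem_iUnion, exists_prop]
    rw [e]
    exact MeasurableSet.iInter fun a => MeasurableSet.iUnion fun n =>
      MeasurableSet.iUnion fun _ => hmeas n
  · apply measure_setOfPred_frequently_eq_zero
    simp only [hval]
    rw [ENNReal.tsum_geometric, ENNReal.one_sub_inv_two, inv_inv]
    exact ENNReal.ofNat_ne_top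

end Pool.Agent.Y475.UN
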